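import Mathlib
import Pool.Agent.H1.PC.PalindromicCoding

namespace Pool.Agent.Results.MP_0ea415_nt.LongRepetitions

open Finset
open Pool.Agent.H1.PC

section basics

variable {α : ℝ}

/-- A solution of the recurrence of `α` on a window is a combination of `Q` and `θ`. -/
lemma window_repr (y : ℕ → ℝ) (a s : ℕ)
    (hrec : ∀ i < s, y (a + i + 2) = pq α (a + i + 1) * y (a + i + 1) - y (a + i)) :
    (∀ j ≤ s, y (a + j + 1) * th α (a + j) - y (a + j) * th α (a + j + 1) =
      y (a + 1) * th α a - y a * th α (a + 1)) ∧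
    (∀ j ≤ s, y (a + j + 1) =
      den α (a + j + 1) * (y (a + 1) * th α a - y a * th α (a + 1)) -
      th α (a + j + 1) * (y (a + 1) * den α a - y a * den α (a + 1))) := by
  have hW : ∀ j ≤ s, y (a + j + 1) * th α (a + j) - y (a + j) * th α (a + j + 1) =
      y (a + 1) * th α a - y a * th α (a + 1) := by
    intro j
    induction j with
    | zero => intro _; simp
    | succ j ih =>
      intro hj
      rw [← ih (by omega)]
      have h1 := hrec j (by omega)
      have h2 : th α (a + j + 2) = pq α (a + j + 1) * th α (a + j + 1) - th α (a + j) :=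
        th_rec (a + j)
      have e1 : a + (j + 1) + 1 = a + j + 2 := by ring
      have e2 : a + (j + 1) = a + j + 1 := by ring
      rw [e1, e2, h1, h2]; ring
  have hW' : ∀ j ≤ s, y (a + j + 1) * den α (a + j) - y (a + j) * den α (a + j + 1) =
      y (a + 1) * den α a - y a * den α (a + 1) := by
    intro j
    induction j with
    | zero => intro _; simp
    | succ j ih =>
      intro hj
      rw [← ih (by omega)]
      have h1 := hrec j (by omega)
      have h2 : (den α (a + j + 2) : ℝ) = pq α (a + j + 1) * den α (a + j + 1) - den α (a + j) := by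
        have : den α (a + j + 2) = pq α (a + j + 1) * den α (a + j + 1) - den α (a + j) := rfl
        rw [this]; push_cast; ring
      have e1 : a + (j + 1) + 1 = a + j + 2 := by ring
      have e2 : a + (j + 1) = a + j + 1 := by ring
      rw [e1, e2, h1, h2]; ring
  refine ⟨hW, ?_⟩
  intro j hj
  have hWi := hW j hj
  have hW'i := hW' j hj
  have hdet := det (α := α) (a + j)
  rw [← hWi, ← hW'i]
  linear_combination (-(y (a + j + 1))) * hdet

variable (hα : Irrational α)
include hα

lemma th_nonneg (k : ℕ) : 0 ≤ th α k := (th_pos hα k).1.le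

lemma th_anti : Antitone (th α) := antitone_nat_of_succ_le (fun k => (th_lt hα k).le)

lemma den_mono : Monotone (den α) := monotone_nat_of_le_succ (fun k => by
    have := (den_inc hα k).2; omega)

lemma den_cast_mono {i j : ℕ} (h : i ≤ j) : (den α i : ℝ) ≤ den α j := by
  exact_mod_cast den_mono hα h

lemma den_cast_nonneg (k : ℕ) : (0 : ℝ) ≤ den α k := by exact_mod_cast (den_inc hα k).1

lemma den_ge (k : ℕ) : (k : ℤ) ≤ den α k := by
  induction k with
  | zero => exact (den_inc hα 0).1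
  | succ k ih =>
    have := (den_inc hα k).2
    push_cast; omega

/-- bounded solutions -/
lemma window_bound (y : ℕ → ℝ) (M : ℝ) (hM : ∀ k, |y k| ≤ M) (a s : ℕ)
    (hrec : ∀ i < s, y (a + i + 2) = pq α (a + i + 1) * y (a + i + 1) - y (a + i))
    (j : ℕ) (hj : j ≤ s) :
    |y (a + j + 1)| ≤ 2 * M * (den α (a + j + 1) * th α (a + s) +
      th α (a + j + 1) * den α (a + 1)) := by
  have hM0 : 0 ≤ M := (abs_nonneg _).trans (hM 0)
  obtain ⟨hW, hy⟩ := window_repr (α := α) y a s hrec
  have hWs := hW s le_rfl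
  have hyj := hy j hj
  set w : ℝ := y (a + 1) * th α a - y a * th α (a + 1) with hw
  set w' : ℝ := y (a + 1) * den α a - y a * den α (a + 1) with hw'
  have hw_abs : |w| ≤ 2 * M * th α (a + s) := by
    rw [← hWs]
    refine (abs_sub _ _).trans ?_
    rw [abs_mul, abs_mul, abs_of_nonneg (th_nonneg hα _), abs_of_nonneg (th_nonneg hα _)]
    have a1 : |y (a + s + 1)| * th α (a + s) ≤ M * th α (a + s) :=
      mul_le_mul_of_nonneg_right (hM _) (th_nonneg hα _)
    have a2 : |y (a + s)| * th α (a + s + 1) ≤ M * th α (a + s) :=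
      mul_le_mul (hM _) (th_anti hα (by omega)) (th_nonneg hα _) hM0
    linarith
  have hw'_abs : |w'| ≤ 2 * M * den α (a + 1) := by
    rw [hw']
    refine (abs_sub _ _).trans ?_
    rw [abs_mul, abs_mul, abs_of_nonneg (den_cast_nonneg hα _),
      abs_of_nonneg (den_cast_nonneg hα _)]
    have a1 : |y (a + 1)| * (den α a : ℝ) ≤ M * den α (a + 1) :=
      mul_le_mul (hM _) (den_cast_mono hα (by omega)) (den_cast_nonneg hα _) hM0
    have a2 : |y a| * (den α (a + 1) : ℝ) ≤ M * den α (a + 1) :=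
      mul_le_mul_of_nonneg_right (hM _) (den_cast_nonneg hα _)
    linarith
  rw [hyj]
  refine (abs_sub _ _).trans ?_
  rw [abs_mul, abs_mul, abs_of_nonneg (den_cast_nonneg hα _), abs_of_nonneg (th_nonneg hα _)]
  have f1 := mul_le_mul_of_nonneg_left hw_abs (den_cast_nonneg hα (a + j + 1))
  have f2 := mul_le_mul_of_nonneg_left hw'_abs (th_nonneg hα (a + j + 1))
  calc _ ≤ (den α (a + j + 1) : ℝ) * (2 * M * th α (a + s)) +
        th α (a + j + 1) * (2 * M * den α (a + 1)) := by linarith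
    _ = _ := by ring

/-- growth of the shifted denominators along a run of period `l` -/
lemma shift_growth (n l s : ℕ) (hrun : ∀ i < s, pq α (n + i + 1) = pq α (n + l + i + 1))
    (j : ℕ) (hj : j ≤ s) :
    (den α (n + j + 1 + l) : ℝ) ≤
      2 * (den α (n + j + 1) * (den α (n + l + 1) * th α n)) := by
  have hrec : ∀ i < s, (fun k => (den α (k + l) : ℝ)) (n + i + 2) =
      pq α (n + i + 1) * (fun k => (den α (k + l) : ℝ)) (n + i + 1) -
      (fun k => (den α (k + l) : ℝ)) (n + i) := by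
    intro i hi
    have h1 : den α (n + i + l + 2) = pq α (n + i + l + 1) * den α (n + i + l + 1) -
      den α (n + i + l) := rfl
    have e1 : n + i + 2 + l = n + i + l + 2 := by ring
    have e2 : n + i + 1 + l = n + i + l + 1 := by ring
    have e3 : n + l + i + 1 = n + i + l + 1 := by ring
    simp only [e1, e2]
    rw [h1, hrun i hi, e3]
    push_cast; ring
  obtain ⟨-, hy⟩ := window_repr (α := α) (fun k => (den α (k + l) : ℝ)) n s hrec
  have h := hy j hj
  have e : n + 1 + l = n + l + 1 := by ring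
  rw [e] at h
  rw [h]
  have hQ1 := den_cast_nonneg hα (n + l)
  have hQ2 := den_cast_nonneg hα (n + l + 1)
  have hQ3 := den_cast_nonneg hα (n + j + 1)
  have hQ4 := den_cast_nonneg hα n
  have hQ5 := den_cast_nonneg hα (n + 1)
  have ht1 := th_nonneg hα n
  have ht2 := th_nonneg hα (n + 1)
  have ht3 := th_nonneg hα (n + j + 1)
  have m1 : (den α (n + l) : ℝ) ≤ den α (n + l + 1) := den_cast_mono hα (by omega)
  have m2 : (den α (n + 1) : ℝ) ≤ den α (n + j + 1) := den_cast_mono hα (by omega)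
  have m3 : th α (n + j + 1) ≤ th α n := th_anti hα (by omega)
  -- first term
  have f1 : (den α (n + j + 1) : ℝ) * (den α (n + l + 1) * th α n - den α (n + l) * th α (n + 1)) ≤
      den α (n + j + 1) * (den α (n + l + 1) * th α n) := by
    apply mul_le_mul_of_nonneg_left _ hQ3
    have : 0 ≤ (den α (n + l) : ℝ) * th α (n + 1) := mul_nonneg hQ1 ht2
    linarith
  have f2 : -(th α (n + j + 1) * ((den α (n + l + 1) : ℝ) * den α n -
      den α (n + l) * den α (n + 1))) ≤ th α n * (den α (n + l + 1) * den α (n + j + 1)) := by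
    have g1 : -((den α (n + l + 1) : ℝ) * den α n - den α (n + l) * den α (n + 1)) ≤
        den α (n + l + 1) * den α (n + j + 1) := by
      have : 0 ≤ (den α (n + l + 1) : ℝ) * den α n := mul_nonneg hQ2 hQ4
      have h3 : (den α (n + l) : ℝ) * den α (n + 1) ≤ den α (n + l + 1) * den α (n + j + 1) :=
        mul_le_mul m1 m2 hQ5 hQ2
      linarith
    have g2 : 0 ≤ (den α (n + l + 1) : ℝ) * den α (n + j + 1) := mul_nonneg hQ2 hQ3
    calc -(th α (n + j + 1) * ((den α (n + l + 1) : ℝ) * den α n -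
      den α (n + l) * den α (n + 1))) = th α (n + j + 1) * (-((den α (n + l + 1) : ℝ) * den α n -
      den α (n + l) * den α (n + 1))) := by ring
      _ ≤ th α (n + j + 1) * (den α (n + l + 1) * den α (n + j + 1)) :=
        mul_le_mul_of_nonneg_left g1 ht3
      _ ≤ th α n * (den α (n + l + 1) * den α (n + j + 1)) :=
        mul_le_mul_of_nonneg_right m3 g2
  nlinarith [f1, f2]

end basics

/-- the badly approximable case -/
lemma bad_case {α : ℝ} (hα : Irrational α) {δ : ℝ} (hδ : 0 < δ)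
    (hbad : ∀ q : ℕ, 0 < q → ∀ p : ℤ, δ ≤ (q : ℝ) * |(q : ℝ) * α - p|)
    {β : ℝ} {R : ℕ → ℤ} {M : ℝ} (hM : ∀ k, |(den α k : ℝ) * β - R k| ≤ M)
    (hrun : ∀ L : ℕ, ∃ n l s : ℕ, 1 ≤ l ∧ 2 * l + L ≤ s ∧
      ∀ i < s, pq α (n + i + 1) = pq α (n + l + i + 1) ∧
        digit α R (n + i) = digit α R (n + l + i))
    (ε : ℝ) (hε : 0 < ε) (N : ℕ) :
    ∃ q : ℕ, N ≤ q ∧ 0 < q ∧ ∃ p r : ℤ,
      (q : ℝ) * |(q : ℝ) * α - p| * |(q : ℝ) * β - r| < ε := by
  have hM0 : 0 ≤ M := (abs_nonneg _).trans (hM 0)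
  have hd1 := delta_le_one hα hδ hbad
  set κ : ℝ := 1 + (1 + 1 / δ) / δ + 1 / δ with hκ
  have hκ0 : 0 < κ := by positivity
  set C : ℝ := 4 * M * (1 / δ * (1 / δ) + 2 * (1 / δ) * κ * (1 / δ)) with hC
  have hC0 : 0 ≤ C := by positivity
  obtain ⟨K1, hK1⟩ := exists_pow_lt_of_lt_one
    (show (0 : ℝ) < ε / (C + 1) by positivity) (show 1 - δ < 1 by linarith)
  obtain ⟨K3, hK3⟩ := exists_nat_ge ((N : ℝ) / δ)
  set g := K1 + K3 with hg
  obtain ⟨n, l, s, hl, hls, hp⟩ := hrun (2 * g + 1)
  set k := n + l + 1 + g with hk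
  have hks : k + l + g ≤ n + s := by omega
  -- the difference
  let V : ℕ → ℝ := fun k => (den α k : ℝ) * β - R k
  let Y : ℕ → ℝ := fun k => V (k + l) - V k
  have hY : ∀ k, |Y k| ≤ 2 * M := by
    intro k
    refine (abs_sub _ _).trans ?_
    have h1 : |V k| ≤ M := hM k
    have h2 : |V (k + l)| ≤ M := hM _
    linarith
  have hrec : ∀ k, (den α (k + 2) : ℝ) = pq α (k + 1) * den α (k + 1) - den α k := by
    intro k
    have : den α (k + 2) = pq α (k + 1) * den α (k + 1) - den α k := rfl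
    rw [this]; push_cast; ring
  have hdig : ∀ k, (digit α R k : ℝ) = R (k + 2) - pq α (k + 1) * R (k + 1) + R k := by
    intro k; unfold digit; push_cast; ring
  have hYrec : ∀ j < s, Y (n + j + 2) = pq α (n + j + 1) * Y (n + j + 1) - Y (n + j) := by
    intro j hj
    obtain ⟨h1, h2⟩ := hp j hj
    have h3 := hdig (n + j)
    have h4 := hdig (n + l + j)
    have h5 := hrec (n + j)
    have h6 := hrec (n + l + j)
    have h7 : (digit α R (n + j) : ℝ) = digit α R (n + l + j) := by exact_mod_cast h2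
    have h8 : (pq α (n + l + j + 1) : ℝ) = pq α (n + j + 1) := by rw [h1]
    rw [h8] at h4 h6
    have e1 : n + j + 2 + l = n + l + j + 2 := by ring
    have e2 : n + j + 1 + l = n + l + j + 1 := by ring
    have e3 : n + j + l = n + l + j := by ring
    simp only [Y, V]
    rw [e1, e2, e3]
    linear_combination (-β) * h5 + β * h6 + h7 - h3 + h4
  have hYk := window_bound hα Y (2 * M) hY n s hYrec (l + g) (by omega)
  have ek : n + (l + g) + 1 = k := by omega
  rw [ek] at hYk
  have hgr := shift_growth hα n l s (fun i hi => (hp i hi).1) (l + g) (by omega)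
  rw [ek] at hgr
  -- products
  have hth : ∀ i, 0 ≤ th α i := th_nonneg hα
  have hQ : ∀ i, (0 : ℝ) ≤ den α i := den_cast_nonneg hα
  have b1 : (den α (k + l) : ℝ) * th α (n + s) ≤ (1 / δ) * (1 - δ) ^ g := by
    have h1 := th_decay hα hδ hbad (k + l) g
    have h2 := (step_facts hα hδ hbad (k + l)).2.2
    have h3 : th α (n + s) ≤ th α (k + l + g) := th_anti hα hks
    calc (den α (k + l) : ℝ) * th α (n + s)
        ≤ den α (k + l) * ((1 - δ) ^ g * th α (k + l)) :=
          mul_le_mul_of_nonneg_left (h3.trans h1) (hQ _)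
      _ = (1 - δ) ^ g * (den α (k + l) * th α (k + l)) := by ring
      _ ≤ (1 - δ) ^ g * (1 / δ) :=
          mul_le_mul_of_nonneg_left h2 (pow_nonneg (by linarith) _)
      _ = _ := by ring
  have b2 : (den α k : ℝ) * th α k ≤ 1 / δ := (step_facts hα hδ hbad k).2.2
  have b3 : (den α (n + l + 1) : ℝ) * th α k ≤ (1 / δ) * (1 - δ) ^ g := by
    have h1 := th_decay hα hδ hbad (n + l + 1) g
    have h2 := (step_facts hα hδ hbad (n + l + 1)).2.2
    calc (den α (n + l + 1) : ℝ) * th α k
        ≤ den α (n + l + 1) * ((1 - δ) ^ g * th α (n + l + 1)) :=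
          mul_le_mul_of_nonneg_left h1 (hQ _)
      _ = (1 - δ) ^ g * (den α (n + l + 1) * th α (n + l + 1)) := by ring
      _ ≤ (1 - δ) ^ g * (1 / δ) :=
          mul_le_mul_of_nonneg_left h2 (pow_nonneg (by linarith) _)
      _ = _ := by ring
  have b4 : (den α (n + 1) : ℝ) * th α n ≤ κ := by
    have h1 := prod_bound hα hδ hbad n
    have h2 : (den α (n + 1) : ℝ) ≤ den α (n + 2) := den_cast_mono hα (by omega)
    exact (mul_le_mul_of_nonneg_right h2 (hth _)).trans h1
  have hp0 : 0 ≤ (1 - δ) ^ g := pow_nonneg (by linarith) _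
  have t1 : ((den α (k + l) : ℝ) * th α k) * (den α k * th α (n + s)) ≤
      (1 / δ * (1 / δ)) * (1 - δ) ^ g := by
    calc ((den α (k + l) : ℝ) * th α k) * (den α k * th α (n + s))
        = (den α k * th α k) * ((den α (k + l) : ℝ) * th α (n + s)) := by ring
      _ ≤ (1 / δ) * ((1 / δ) * (1 - δ) ^ g) :=
        mul_le_mul b2 b1 (mul_nonneg (hQ _) (hth _)) (by positivity)
      _ = _ := by ring
  have t2 : ((den α (k + l) : ℝ) * th α k) * (th α k * den α (n + 1)) ≤
      (2 * (1 / δ) * κ * (1 / δ)) * (1 - δ) ^ g := by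
    calc ((den α (k + l) : ℝ) * th α k) * (th α k * den α (n + 1))
        ≤ ((2 * (den α k * (den α (n + l + 1) * th α n))) * th α k) *
          (th α k * den α (n + 1)) := by
          apply mul_le_mul_of_nonneg_right _ (mul_nonneg (hth _) (hQ _))
          exact mul_le_mul_of_nonneg_right hgr (hth _)
      _ = 2 * ((den α k * th α k) * (den α (n + 1) * th α n) *
            (den α (n + l + 1) * th α k)) := by ring
      _ ≤ 2 * ((1 / δ) * κ * ((1 / δ) * (1 - δ) ^ g)) := by
          apply mul_le_mul_of_nonneg_left _ (by norm_num)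
          apply mul_le_mul _ b3 (mul_nonneg (hQ _) (hth _)) (by positivity)
          exact mul_le_mul b2 b4 (mul_nonneg (hQ _) (hth _)) (by positivity)
      _ = _ := by ring
  -- the integers
  set q : ℤ := den α (k + l) - den α k with hq
  set p : ℤ := num α (k + l) - num α k with hpdef
  set r : ℤ := R (k + l) - R k with hr
  have hqlow : (den α (k + 1) - den α k : ℤ) ≤ q := by
    have h1 : den α (k + 1) ≤ den α (k + l) := den_mono hα (by omega)
    rw [hq]; omega
  have hqup : (q : ℝ) ≤ den α (k + l) := by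
    rw [hq]; push_cast; have := hQ k; linarith
  have hqpos : 0 < q := by
    have := (den_inc hα k).2
    omega
  have hqN : (N : ℝ) ≤ q := by
    have h1 := (step_facts hα hδ hbad k).2.1
    have h2 : (k : ℝ) ≤ den α k := by exact_mod_cast den_ge hα k
    have h3 : ((den α (k + 1) - den α k : ℤ) : ℝ) ≤ q := by exact_mod_cast hqlow
    push_cast at h3
    have h5 : (K3 : ℝ) ≤ k := by
      have : K3 ≤ k := by omega
      exact_mod_cast this
    rw [div_le_iff₀ hδ] at hK3
    have h6 : (K3 : ℝ) ≤ den α k := by linarith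
    have h7 : (K3 : ℝ) * δ ≤ δ * den α k := by
      rw [mul_comm]; exact mul_le_mul_of_nonneg_left h6 hδ.le
    nlinarith
  have hqp : |(q : ℝ) * α - p| ≤ th α k := by
    have e : (q : ℝ) * α - p = th α k - th α (k + l) := by
      rw [hq, hpdef]; unfold th; push_cast; ring
    have h1 : th α (k + l) ≤ th α k := th_anti hα (by omega)
    have h2 := hth (k + l)
    rw [e, abs_of_nonneg (by linarith)]
    linarith
  have hqr : |(q : ℝ) * β - r| = |Y k| := by
    congr 1
    simp only [Y, V]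
    rw [hq, hr]; push_cast; ring
  have hfin : (q : ℝ) * |(q : ℝ) * α - p| * |(q : ℝ) * β - r| < ε := by
    rw [hqr]
    have h1 : (q : ℝ) * |(q : ℝ) * α - p| ≤ den α (k + l) * th α k :=
      mul_le_mul hqup hqp (abs_nonneg _) (hQ _)
    have h2 : (q : ℝ) * |(q : ℝ) * α - p| * |Y k| ≤ (den α (k + l) * th α k) *
        (2 * (2 * M) * (den α k * th α (n + s) + th α k * den α (n + 1))) :=
      mul_le_mul h1 hYk (abs_nonneg _) (mul_nonneg (hQ _) (hth _))
    have h3 : (den α (k + l) * th α k) *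
        (2 * (2 * M) * (den α k * th α (n + s) + th α k * den α (n + 1))) =
        4 * M * (((den α (k + l) : ℝ) * th α k) * (den α k * th α (n + s)) +
          ((den α (k + l) : ℝ) * th α k) * (th α k * den α (n + 1))) := by ring
    rw [h3] at h2
    have h4 : 4 * M * (((den α (k + l) : ℝ) * th α k) * (den α k * th α (n + s)) +
          ((den α (k + l) : ℝ) * th α k) * (th α k * den α (n + 1))) ≤
        4 * M * ((1 / δ * (1 / δ)) * (1 - δ) ^ g + (2 * (1 / δ) * κ * (1 / δ)) * (1 - δ) ^ g) :=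
      mul_le_mul_of_nonneg_left (by linarith) (by positivity)
    have h5 : 4 * M * ((1 / δ * (1 / δ)) * (1 - δ) ^ g +
        (2 * (1 / δ) * κ * (1 / δ)) * (1 - δ) ^ g) = C * (1 - δ) ^ g := by rw [hC]; ring
    rw [h5] at h4
    have h6 : (1 - δ) ^ g ≤ (1 - δ) ^ K1 :=
      pow_le_pow_of_le_one (by linarith) (by linarith) (by omega)
    have h7 : (1 - δ) ^ g < ε / (C + 1) := lt_of_le_of_lt h6 hK1
    rw [lt_div_iff₀ (by positivity)] at h7
    nlinarith
  obtain ⟨q', hq'⟩ : ∃ q' : ℕ, q = q' := ⟨q.toNat, by omega⟩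
  rw [hq'] at hfin hqN hqpos
  refine ⟨q', by exact_mod_cast hqN, by exact_mod_cast hqpos, p, r, ?_⟩
  exact_mod_cast hfin

/-- Long repetitions criterion: if the joint sequence (minus continued fraction digit of `α`,
digit of `β`) contains, for every `L`, a run with period `l` and length at least `3 l + L`, then
Littlewood's conjecture holds for `(α, β)`. -/
theorem result (α β : ℝ) (hα : Irrational α) (R : ℕ → ℤ)
    (hR : ∃ M : ℝ, ∀ k, |(den α k : ℝ) * β - R k| ≤ M)
    (hrun : ∀ L : ℕ, ∃ n l s : ℕ, 1 ≤ l ∧ 2 * l + L ≤ s ∧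
      ∀ i < s, pq α (n + i + 1) = pq α (n + l + i + 1) ∧
        digit α R (n + i) = digit α R (n + l + i)) :
    ∀ ε : ℝ, 0 < ε → ∀ N : ℕ, ∃ q : ℕ, N ≤ q ∧ 0 < q ∧
      (q : ℝ) * |(q : ℝ) * α - (round ((q : ℝ) * α) : ℝ)|
        * |(q : ℝ) * β - (round ((q : ℝ) * β) : ℝ)| < ε := by
  intro ε hε N
  obtain ⟨M, hM⟩ := hR
  by_cases hb : ∀ ε : ℝ, 0 < ε → ∀ N : ℕ, ∃ q : ℕ, N ≤ q ∧ 0 < q ∧
      (q : ℝ) * |(q : ℝ) * α - (round ((q : ℝ) * α) : ℝ)| < ε
  · obtain ⟨q, hq, hq0, h⟩ := hb ε hε N
    refine ⟨q, hq, hq0, ?_⟩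
    have h1 := abs_sub_round ((q : ℝ) * β)
    have h2 : 0 ≤ (q : ℝ) * |(q : ℝ) * α - (round ((q : ℝ) * α) : ℝ)| := by positivity
    nlinarith [abs_nonneg ((q : ℝ) * β - (round ((q : ℝ) * β) : ℝ))]
  · push Not at hb
    obtain ⟨ε0, hε0, N0, hN0⟩ := hb
    set m : ℕ := N0 + 1 with hm
    have hmpos : (0 : ℝ) < m := by positivity
    have hδ : 0 < ε0 / (m : ℝ) ^ 2 := by positivity
    have hbad : ∀ q : ℕ, 0 < q → ∀ p : ℤ, ε0 / (m : ℝ) ^ 2 ≤ (q : ℝ) * |(q : ℝ) * α - p| := by
      intro q hq p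
      have h1 := hN0 (m * q) (by nlinarith) (Nat.mul_pos (by omega) hq)
      have h2 := round_le (((m * q : ℕ) : ℝ) * α) (m * p)
      have h3 : |((m * q : ℕ) : ℝ) * α - ((m * p : ℤ) : ℝ)| = m * |(q : ℝ) * α - p| := by
        have e : ((m * q : ℕ) : ℝ) * α - ((m * p : ℤ) : ℝ) = m * ((q : ℝ) * α - p) := by
          push_cast; ring
        rw [e, abs_mul, abs_of_pos hmpos]
      rw [h3] at h2
      rw [div_le_iff₀ (by positivity)]
      have h4 : ((m * q : ℕ) : ℝ) * |((m * q : ℕ) : ℝ) * α -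
          (round (((m * q : ℕ) : ℝ) * α) : ℝ)| ≤ ((m * q : ℕ) : ℝ) * (m * |(q : ℝ) * α - p|) :=
        mul_le_mul_of_nonneg_left h2 (Nat.cast_nonneg _)
      have h5 : ((m * q : ℕ) : ℝ) * (m * |(q : ℝ) * α - p|) =
          (q : ℝ) * |(q : ℝ) * α - p| * (m : ℝ) ^ 2 := by push_cast; ring
      linarith
    obtain ⟨q, hq, hq0, p, r, h⟩ := bad_case hα hδ hbad hM hrun ε hε N
    refine ⟨q, hq, hq0, lt_of_le_of_lt ?_ h⟩
    apply mul_le_mul _ (round_le _ _) (abs_nonneg _) (by positivity)
    exact mul_le_mul_of_nonneg_left (round_le _ _) (Nat.cast_nonneg _)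

end Pool.Agent.Results.MP_0ea415_nt.LongRepetitions
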